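import Pool.Agent.W401.WC.Counter

/-!
# Extremal weakened convex functions: the formula fails for every `m ≥ 5`
-/

open Finset Pool.Agent.W401.WC

namespace Pool.Agent.W401.Kept.FailsFromFive

/-- For every `m ≥ 5` there is a point `x` of `[0,1]` and a bound `B` below the value of the
formula at `x` such that every member of the class is at most `B` at `x`. -/
theorem result :
    ∀ m : ℕ, 5 ≤ m → ∃ x ∈ Set.Icc (0 : ℝ) 1, ∃ B : ℝ, B < Tk m x ∧
      (∀ f : ℝ → ℝ, Cls m f → f x ≤ B) ∧ Ext m x ≤ B := by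
  intro m h5
  rcases Nat.lt_or_ge m 6 with h | h6
  · obtain rfl : m = 5 := by omega
    refine ⟨4 / 25, ⟨by norm_num, by norm_num⟩, 4 / 5, ?_, fun f hf => val_five hf,
      Ext_le (by norm_num) fun f hf _ => val_five hf⟩
    rw [Tk_eq (by norm_num), phi_five]; norm_num
  · have hm2 : 2 ≤ m := by omega
    have hm6 : (6 : ℝ) ≤ m := by exact_mod_cast h6
    refine ⟨1 / m, ⟨by positivity, ?_⟩, 1 / 2 + 5 / (2 * m), ?_, fun f hf => val_six h6 hf,
      Ext_le hm2 fun f hf _ => val_six h6 hf⟩
    · rw [div_le_one (by linarith)]; linarith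
    · rw [Tk_eq hm2, phi_inv hm2]
      have h3 : (5 : ℝ) / (2 * m) ≤ 5 / 12 :=
        div_le_div_of_nonneg_left (by norm_num) (by norm_num) (by linarith)
      linarith

end Pool.Agent.W401.Kept.FailsFromFive
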