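import Pool.Agent.W401.Gal.FT

/-!
# A case of the Fontaine-Mazur conjecture: few Frobenius traces

Let `K` be a number field, `p` a prime and `ρ : G_K → GL_n(ℚ_p)` a continuous irreducible
representation.  If the traces of the Frobenius elements lie in a finite set `Y` for a set of primes of
`K` of upper density greater than `1 - 1/n²`, then `ρ` has open kernel and `V` embeds
`G_K`-equivariantly in the functions from a finite set `X`, on which `G_K` acts continuously, to
`ℚ_p`, that is in the étale cohomology `H⁰` of a finite étale `K`-scheme.  The finiteness of the image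
holds for all semisimple representations over all Hausdorff topological fields of characteristic zero.
-/

set_option autoImplicit false

namespace Pool.Agent.W401.Kept.FiniteTraces

open NumberField IsDedekindDomain Filter Topology Pool.Agent.W401.Cheb Pool.Agent.W401.Gal

theorem result (K : Type) [Field K] [NumberField K] (E : Type) [Field E] [CharZero E]
    [TopologicalSpace E] [IsTopologicalRing E] [T2Space E] (n : ℕ) (hn : 0 < n)
    (ρ : GK K →* GL (Fin n) E) (hcont : Continuous ρ) (Y : Set E) (hY : Y.Finite) (δ : ℝ)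
    (hδ : 1 - 1 / (n : ℝ) ^ 2 < δ)
    (h : ∃ᶠ N in atTop, δ ≤ dens (fun v : HeightOneSpectrum (𝓞 K) =>
      ∀ σ : GK K, IsFrob v σ → (ρ σ : Matrix (Fin n) (Fin n) E).trace ∈ Y) N) :
    (Semis ρ → (Set.range ρ).Finite) ∧
    ((∀ W : Submodule E (Fin n → E), (∀ g : GK K, ∀ w ∈ W,
        (ρ g : Matrix (Fin n) (Fin n) E).mulVec w ∈ W) → W = ⊥ ∨ W = ⊤) →
      ∃ (U : Subgroup (GK K)) (j : (Fin n → E) →ₗ[E] (GK K ⧸ U → E)), IsOpen (U : Set (GK K)) ∧
        Finite (GK K ⧸ U) ∧ Function.Injective j ∧
        ∀ (g : GK K) (w : Fin n → E) (x : GK K ⧸ U),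
          j ((ρ g : Matrix (Fin n) (Fin n) E).mulVec w) x = j w (g⁻¹ • x)) := by
  have hc : ∀ m : ℕ, 0 < m → m ≤ n → (m : E) ≠ 0 := fun m hm _ => by exact_mod_cast hm.ne'
  have hfin : Semis ρ → (Set.range ρ).Finite := fun hs =>
    finite_of_frob_traces chebK Pool.Agent.W401.Frob.main hn hc ρ hcont hs hY hδ h
  refine ⟨hfin, fun hirr => ?_⟩
  have hs : Semis ρ := by
    intro W hW
    rcases hirr W hW with h | h
    · exact ⟨⊤, fun _ _ _ => trivial, by rw [h]; exact isCompl_bot_top⟩
    · refine ⟨⊥, ?_, by rw [h]; exact isCompl_top_bot⟩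
      intro g w hw
      rw [Submodule.mem_bot] at hw ⊢
      rw [hw, Matrix.mulVec_zero]
  have hR := hfin hs
  have hfi : Finite (GK K ⧸ ρ.ker) := by
    have : Finite ρ.range := hR.to_subtype
    exact Finite.of_equiv _ (QuotientGroup.quotientKerEquivRange ρ).symm.toEquiv
  have hcl : IsClosed (ρ.ker : Set (GK K)) := by
    have : (ρ.ker : Set (GK K)) = ρ ⁻¹' {1} := by
      ext g; simp [MonoidHom.mem_ker]
    rw [this]
    exact isClosed_singleton.preimage hcont
  have hfidx : ρ.ker.FiniteIndex := Subgroup.finiteIndex_of_finite_quotient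
  have hop : IsOpen (ρ.ker : Set (GK K)) := Subgroup.isOpen_of_isClosed_of_finiteIndex _ hcl
  obtain ⟨j, hj1, hj2⟩ := embed_functions hn ρ hirr
  exact ⟨ρ.ker, j, hop, hfi, hj1, hj2⟩

end Pool.Agent.W401.Kept.FiniteTraces
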